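import Mathlib
import Pool.Agent.Helper12.RD.Defs

/-! PROJECT BD (Radon transform of bounded functions, MP_9de3af_an): common definitions.
The space of lines has coordinates `z = (t, p)`, the line being `{(p - t s, s)}`.
For `σ = ξ + i η`, `η > 0`, the complex coordinate is `w = (p - ξ t) + i η t`, the conjugate of
`p - σ t`. -/

set_option autoImplicit false

open MeasureTheory Real Filter Topology Set InnerProductSpace
open scoped ContDiff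

noncomputable section

namespace Pool.Agent.Helper34.BD

open Pool.Agent.Helper12.RD

/-- bounded continuous function, integrable with integral zero on the non-horizontal lines and
integrable on the horizontal lines -/
structure HypB (f : ℝ × ℝ → ℝ) (C0 : ℝ) : Prop where
  cont : Continuous f
  bdd : ∀ y, |f y| ≤ C0
  line : ∀ t p : ℝ, Integrable (fun s : ℝ => f (p - t * s, s))
  zero : ∀ t p : ℝ, ∫ s : ℝ, f (p - t * s, s) = 0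
  hor : ∀ s : ℝ, Integrable (fun x : ℝ => f (x, s))

/-- the difference `g` of `f` in the first variable -/
def gg (f : ℝ × ℝ → ℝ) (y : ℝ × ℝ) : ℝ := f (y.1 + 1, y.2) - f y

/-- average of `f` over `[p, p + 1]` at the height `s` -/
def As (f : ℝ × ℝ → ℝ) (s : ℝ) (z : ℝ × ℝ) : ℝ := ∫ q in z.2..(z.2 + 1), f (q - z.1 * s, s)

/-- Poisson kernel of the upper half plane at `ξ + i η` -/
def PK (ξ η s : ℝ) : ℝ := η / ((s - ξ) ^ 2 + η ^ 2)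

/-- the bounded potential -/
def VV (f : ℝ × ℝ → ℝ) (ξ η : ℝ) (z : ℝ × ℝ) : ℝ := ∫ s : ℝ, PK ξ η s * As f s z

/-- its derivative in `p` -/
def vv (f : ℝ × ℝ → ℝ) (ξ η : ℝ) (z : ℝ × ℝ) : ℝ := ∫ s : ℝ, PK ξ η s * gg f (z.2 - z.1 * s, s)

/-- the conjugate of `vv f 0 X` -/
def uu (f : ℝ × ℝ → ℝ) (X : ℝ) (z : ℝ × ℝ) : ℝ :=
  ∫ s : ℝ, s / (s ^ 2 + X ^ 2) * gg f (z.2 - z.1 * s, s)

/-- difference of the conjugates at the scales `1` and `X`; the kernel is `O(|s|⁻³)` -/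
def ue (f : ℝ × ℝ → ℝ) (X : ℝ) (z : ℝ × ℝ) : ℝ :=
  ∫ s : ℝ, (s / (s ^ 2 + 1) - s / (s ^ 2 + X ^ 2)) * gg f (z.2 - z.1 * s, s)

/-- norm of `g` on the line `z` -/
def NN (f : ℝ × ℝ → ℝ) (z : ℝ × ℝ) : ℝ := ∫ s : ℝ, |gg f (z.2 - z.1 * s, s)|

/-- the distribution attached to `f` (second derivative in `p` of the smoothed Radon transform) -/
def DD (f : ℝ × ℝ → ℝ) (φ : ℝ × ℝ → ℝ) : ℝ := ∫ s : ℝ, ∫ z : ℝ × ℝ, As f s z * dp (dp φ) z

/-- complex coordinate -/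
def cz (ξ η : ℝ) (z : ℝ × ℝ) : ℂ := ⟨z.2 - ξ * z.1, η * z.1⟩

/-- inverse of the complex coordinate -/
def ci (ξ η : ℝ) (w : ℂ) : ℝ × ℝ := (w.im / η, w.re + ξ * w.im / η)

/-- `VV` in the complex coordinate -/
def Vc (f : ℝ × ℝ → ℝ) (ξ η : ℝ) (w : ℂ) : ℝ := VV f ξ η (ci ξ η w)

/-- `vv` in the complex coordinate -/
def vc (f : ℝ × ℝ → ℝ) (ξ η : ℝ) (w : ℂ) : ℝ := vv f ξ η (ci ξ η w)

/-- Laplacian on the complex plane -/
def lap (φ : ℂ → ℝ) (w : ℂ) : ℝ :=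
  fderiv ℝ (fun y => fderiv ℝ φ y 1) w 1 + fderiv ℝ (fun y => fderiv ℝ φ y Complex.I) w Complex.I

/-- the distribution vanishes near `z` -/
def RegB (f : ℝ × ℝ → ℝ) (z : ℝ × ℝ) : Prop :=
  ∃ U : Set (ℝ × ℝ), IsOpen U ∧ z ∈ U ∧ ∀ φ : ℝ × ℝ → ℝ, ContDiff ℝ ∞ φ →
    HasCompactSupport φ → tsupport φ ⊆ U → DD f φ = 0

/-- support of the distribution -/
def SB (f : ℝ × ℝ → ℝ) : Set (ℝ × ℝ) := {z | ¬ RegB f z}

/-- the box with centre `z₀` and half side `r` -/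
def box (z₀ : ℝ × ℝ) (r : ℝ) : Set (ℝ × ℝ) :=
  Ioo (z₀.1 - r) (z₀.1 + r) ×ˢ Ioo (z₀.2 - r) (z₀.2 + r)

/-- a local compatible family on an open set `O` -/
structure LFam (Φ : ℕ → ℝ × ℝ → ℂ) (O : Set (ℝ × ℝ)) : Prop where
  cont : ∀ k, ContinuousOn (Φ k) O
  lim : ∀ z ∈ O, Tendsto (fun k => Φ k z) atTop (𝓝 0)
  bd : ∀ Q : Set (ℝ × ℝ), IsCompact Q → Q ⊆ O → ∃ C : ℝ, ∀ k, ∀ z ∈ Q, ‖Φ k z‖ ≤ C * 4 ^ k
  pair : ∀ k, ∀ φ : ℝ × ℝ → ℝ, ContDiff ℝ ∞ φ → HasCompactSupport φ → tsupport φ ⊆ O →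
    Bp (2 ^ k) (Φ k) φ = Bp 1 (Φ 0) φ

end Pool.Agent.Helper34.BD
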