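import Pool.Agent.Helper34.BD.St.C6b
import Pool.Agent.Helper34.Radon.Bd.Final
import Pool.Agent.Helper12.RD.St.V1
import Pool.Agent.Helper12.RD.St.V2

/-! PROJECT BD: the theorem for bounded functions and for functions with a bounded combination of
translates in one direction. -/

set_option autoImplicit false

open MeasureTheory Real Filter Topology Set

noncomputable section

namespace Pool.Agent.Helper34.BD

open Pool.Agent.Helper12.RD Pool.Agent.Helper34.Radon.Bd

/-- bounded functions -/
theorem bounded_main {f : ℝ × ℝ → ℝ} (hf : Continuous f) {C0 : ℝ} (hb : ∀ y, |f y| ≤ C0)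
    (hl : ∀ θ p : ℝ, Integrable (fun t : ℝ => f (pt θ p t)))
    (hz : ∀ θ p : ℝ, ∫ t : ℝ, f (pt θ p t) = 0) : f = 0 := by
  have h : HypB f C0 := by
    refine ⟨hf, hb, fun t p => ?_, fun t p => ?_, fun s => ?_⟩
    · exact slope_int (hl (arctan t) (cos (arctan t) * p))
    · exact slope_zero (hz (arctan t) (cos (arctan t) * p))
    · have h1 := (hl (π / 2) s).comp_neg
      refine h1.congr (Eventually.of_forall fun x => ?_)
      simp [pt]
  exact h.eq_zero

/-- functions with a bounded finite combination of translates in one direction -/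
theorem combination_main {f : ℝ × ℝ → ℝ} (hf : Continuous f)
    (hl : ∀ θ p : ℝ, Integrable (fun t : ℝ => f (pt θ p t)))
    (hz : ∀ θ p : ℝ, ∫ t : ℝ, f (pt θ p t) = 0)
    {e : ℝ × ℝ} (he : e ≠ 0) (s : Finset ℝ) (c : ℝ → ℝ) (hc : ∃ r ∈ s, c r ≠ 0) {C0 : ℝ}
    (hb : ∀ x : ℝ × ℝ, |∑ r ∈ s, c r * f (x + r • e)| ≤ C0) : f = 0 := by
  set g : ℝ × ℝ → ℝ := fun x => ∑ r ∈ s, c r * f (x + r • e) with hg
  have hgc : Continuous g := by
    refine continuous_finsetSum _ fun r _ => ?_
    exact continuous_const.mul (hf.comp (continuous_id.add continuous_const))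
  have hgl : ∀ θ p : ℝ, Integrable (fun t : ℝ => g (pt θ p t)) := by
    intro θ p
    exact integrable_finsetSum _ fun r _ => (pt_int hl (r • e) θ p).const_mul _
  have hgz : ∀ θ p : ℝ, ∫ t : ℝ, g (pt θ p t) = 0 := by
    intro θ p
    simp only [hg]
    rw [integral_finsetSum _ fun r _ => (pt_int hl (r • e) θ p).const_mul _]
    refine Finset.sum_eq_zero fun r _ => ?_
    rw [integral_const_mul, pt_zero hz, mul_zero]
  have hg0 : g = 0 := bounded_main hgc hb hgl hgz
  funext x
  have h1 := shift_zero (u := fun r : ℝ => f (x + r • e))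
    (hf.comp (continuous_const.add (continuous_id.smul continuous_const))) (line_int hl he x)
    s c hc (fun y => ?_) 0
  · simpa using h1
  · have h2 : g (x + y • e) = 0 := by rw [hg0]; rfl
    simp only [hg] at h2
    rw [← h2]
    refine Finset.sum_congr rfl fun r _ => ?_
    rw [add_smul, add_assoc]

end Pool.Agent.Helper34.BD
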